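import Mathlib
import Pool.Agent.J6H80.LRec.An

/-!
# The zeros of an analytic sequence modulo powers of `p` (Strassmann's theorem at finite level)
-/

set_option autoImplicit false

namespace Pool.Agent.J6H80.LRec

open Finset Polynomial

variable {p : ℕ} [hp : Fact p.Prime]

/-- Divided differences of a polynomial with integer coefficients are integers. -/
theorem div_diff {D : ℕ} (v : Fin (D + 1) → ℤ) (hv : Function.Injective v) (Q : ℤ[X]) :
    ∃ c : ℤ, ∑ l, (((Q.eval (v l) : ℤ) : ℚ) / ∏ m ∈ univ.erase l, ((v l : ℚ) - (v m : ℚ))) = c ∧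
      (Q.natDegree ≤ D → c = Q.coeff D) := by
  classical
  set N : ℤ[X] := Lagrange.nodal univ v with hN
  have hNm : N.Monic := Lagrange.nodal_monic
  have hNd : N.degree = ((D + 1 : ℕ) : WithBot ℕ) := by
    rw [hN, Lagrange.degree_nodal, card_univ, Fintype.card_fin]
  set R : ℤ[X] := Q %ₘ N with hR
  have hRd : R.degree < ((D + 1 : ℕ) : WithBot ℕ) := by
    rw [← hNd]; exact degree_modByMonic_lt Q hNm
  have hRe : ∀ l, R.eval (v l) = Q.eval (v l) := by
    intro l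
    have h1 : R + N * (Q /ₘ N) = Q := modByMonic_add_div Q N
    have h2 : N.eval (v l) = 0 := Lagrange.eval_nodal_at_node (mem_univ l)
    rw [← h1, eval_add, eval_mul, h2, zero_mul, add_zero]
  set P : ℚ[X] := R.map (Int.castRingHom ℚ) with hP
  have hPd : P.degree < ((univ : Finset (Fin (D + 1))).card : WithBot ℕ) := by
    rw [card_univ, Fintype.card_fin]
    exact lt_of_le_of_lt (degree_map_le) hRd
  have hinj : Set.InjOn (fun l : Fin (D + 1) => ((v l : ℤ) : ℚ)) ((univ : Finset (Fin (D + 1))) : Set _) := by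
    intro l _ m _ h
    apply hv
    have h' : ((v l : ℤ) : ℚ) = ((v m : ℤ) : ℚ) := h
    exact_mod_cast h'
  have h3 := Lagrange.coeff_eq_sum hinj hPd
  refine ⟨R.coeff D, ?_, fun hQ => ?_⟩
  · rw [card_univ, Fintype.card_fin, Nat.add_sub_cancel, hP, coeff_map] at h3
    have h4 : ((R.coeff D : ℤ) : ℚ) = (Int.castRingHom ℚ) (R.coeff D) := rfl
    rw [h4, h3]
    apply sum_congr rfl
    intro l _
    congr 1
    rw [← hRe l]
    have h5 := Polynomial.eval_intCast_map (Int.castRingHom ℚ) R (v l)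
    rw [h5]
    rfl
  · rw [hR, (modByMonic_eq_self_iff hNm).2]
    rw [hNd]
    refine lt_of_le_of_lt (degree_le_natDegree) ?_
    exact_mod_cast Nat.lt_succ_of_le hQ

/-- The same in the field of `p`-adic numbers. -/
theorem div_diff_p {D : ℕ} (v : Fin (D + 1) → ℤ) (hv : Function.Injective v) (Q : ℤ[X]) :
    ∃ c : ℤ, ∑ l, (((Q.eval (v l) : ℤ) : ℚ_[p]) / ∏ m ∈ univ.erase l, ((v l : ℚ_[p]) - (v m : ℚ_[p]))) = c ∧
      (Q.natDegree ≤ D → c = Q.coeff D) := by
  obtain ⟨c, h1, h2⟩ := div_diff v hv Q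
  refine ⟨c, ?_, h2⟩
  have h3 := congrArg (fun x : ℚ => (x : ℚ_[p])) h1
  push_cast at h3
  exact h3

theorem norm_dvd {x : ℤ_[p]} {n : ℕ} (h : (p : ℤ_[p]) ^ n ∣ x) : ‖x‖ ≤ ((p : ℝ)⁻¹) ^ n := by
  have h1 := (PadicInt.norm_le_pow_iff_mem_span_pow x n).2 (Ideal.mem_span_singleton.2 h)
  rwa [zpow_neg, zpow_natCast, ← inv_pow] at h1

theorem dvd_norm {x : ℤ_[p]} {n : ℕ} (h : ‖x‖ ≤ ((p : ℝ)⁻¹) ^ n) : (p : ℤ_[p]) ^ n ∣ x := by
  rw [← Ideal.mem_span_singleton, ← PadicInt.norm_le_pow_iff_mem_span_pow x n, zpow_neg, zpow_natCast, ← inv_pow]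
  exact h

theorem norm_factorial {i : ℕ} (hi : i ≠ 0) : ((p : ℝ)⁻¹) ^ i < ‖((i.factorial : ℕ) : ℚ_[p])‖ := by
  have h1 : ¬ (p ^ i ∣ i.factorial) := by
    intro h
    have h2 := (padicValNat_dvd_iff_le (Nat.factorial_ne_zero i)).1 h
    have h3 := sub_one_mul_padicValNat_factorial_lt_of_ne_zero p hi
    have h4 := hp.out.two_le
    have h5 : padicValNat p i.factorial ≤ (p - 1) * padicValNat p i.factorial :=
      Nat.le_mul_of_pos_left _ (by omega)
    omega
  rw [← not_le]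
  intro h
  apply h1
  have h2 : ‖(((i.factorial : ℕ) : ℤ) : ℤ_[p])‖ ≤ ((p : ℝ)⁻¹) ^ i := by
    rw [PadicInt.norm_intCast_eq_padic_norm]
    push_cast
    exact h
  have h3 := dvd_norm h2
  have h4 := (PadicInt.pow_p_dvd_int_iff i ((i.factorial : ℕ) : ℤ)).1 h3
  exact_mod_cast h4

theorem norm_prod {ι : Type*} (s : Finset ι) (F : ι → ℚ_[p]) {ε : ℝ} (hε : 0 ≤ ε)
    (h : ∀ i ∈ s, ε ≤ ‖F i‖) : ε ^ s.card ≤ ‖∏ i ∈ s, F i‖ := by
  classical
  induction s using Finset.induction_on with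
  | empty => simp
  | insert i s hi ih =>
    rw [card_insert_of_notMem hi, prod_insert hi, norm_mul, pow_succ, mul_comm]
    exact mul_le_mul (h i (mem_insert_self _ _)) (ih (fun k hk => h k (mem_insert_of_mem hk)))
      (pow_nonneg hε _) (norm_nonneg _)

theorem norm_sum_le {ι : Type*} (s : Finset ι) (F : ι → ℚ_[p]) {B : ℝ} (hB : 0 ≤ B)
    (h : ∀ i ∈ s, ‖F i‖ ≤ B) : ‖∑ i ∈ s, F i‖ ≤ B := by
  classical
  induction s using Finset.induction_on with
  | empty => simpa using hB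
  | insert i s hi ih =>
    rw [sum_insert hi]
    exact (Padic.nonarchimedean _ _).trans (max_le (h i (mem_insert_self _ _))
      (ih (fun k hk => h k (mem_insert_of_mem hk))))

theorem norm_sum_lt {ι : Type*} (s : Finset ι) (F : ι → ℚ_[p]) {B : ℝ} (hB : 0 < B)
    (h : ∀ i ∈ s, ‖F i‖ < B) : ‖∑ i ∈ s, F i‖ < B := by
  classical
  induction s using Finset.induction_on with
  | empty => simpa using hB
  | insert i s hi ih =>
    rw [sum_insert hi]
    exact lt_of_le_of_lt (Padic.nonarchimedean _ _) (max_lt (h i (mem_insert_self _ _))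
      (ih (fun k hk => h k (mem_insert_of_mem hk))))

theorem choose_desc (x i : ℕ) : ((x.choose i : ℕ) : ℚ_[p]) =
    (((descPochhammer ℤ i).eval (x : ℤ) : ℤ) : ℚ_[p]) / (i.factorial : ℚ_[p]) := by
  have h1 := descPochhammer_eval_eq_descFactorial ℤ x i
  rw [h1, Nat.descFactorial_eq_factorial_mul_choose]
  push_cast
  rw [mul_div_cancel_left₀]
  exact_mod_cast Nat.factorial_ne_zero i

/-- Strassmann's theorem at finite level: the points where a primitive analytic sequence is divisible by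
a large power of `p` lie in few classes modulo a power of `p`. -/
theorem few_roots {f : ℕ → ℤ_[p]} (hf : An f) {i0 : ℕ} (hprim : Prim i0 f) :
    ∃ D ≤ 2 * i0, ∀ (v : Fin (D + 1) → ℕ) (t j : ℕ), (∀ l, (p : ℤ_[p]) ^ j ∣ f (v l)) →
      (∀ l m, l ≠ m → ¬ ((p : ℤ) ^ t) ∣ ((v l : ℤ) - (v m : ℤ))) → j ≤ 2 * i0 * (t + 1) := by
  classical
  set ϖ : ℝ := (p : ℝ)⁻¹ with hϖ
  have hp1 : (1 : ℝ) < p := by exact_mod_cast hp.out.one_lt
  have hϖ0 : 0 < ϖ := by positivity
  have hϖ1 : ϖ < 1 := inv_lt_one_of_one_lt₀ hp1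
  have hb : ∀ i, ∃ b : ℤ_[p], (fwdDiff 1)^[i] f 0 = p ^ (2 * i) * b := fun i => hf i 0
  choose b hb using hb
  set a : ℕ → ℚ_[p] := fun i => p ^ (2 * i) * (b i : ℚ_[p]) / (i.factorial : ℚ_[p]) with ha
  -- norms of the coefficients
  have hfac : ∀ i : ℕ, 0 < ‖((i.factorial : ℕ) : ℚ_[p])‖ := by
    intro i
    rw [norm_pos_iff]
    exact_mod_cast Nat.factorial_ne_zero i
  have hNp : ∀ n : ℕ, ‖(p : ℚ_[p]) ^ n‖ = ϖ ^ n := by
    intro n
    rw [norm_pow, Padic.norm_p]
  have hNa : ∀ i, ‖a i‖ = ϖ ^ (2 * i) * ‖b i‖ / ‖((i.factorial : ℕ) : ℚ_[p])‖ := by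
    intro i
    rw [ha]
    simp only
    rw [norm_div, norm_mul, hNp]
    rfl
  have hup : ∀ i, i ≠ 0 → ‖a i‖ < ϖ ^ i := by
    intro i hi
    rw [hNa, div_lt_iff₀ (hfac i)]
    have h1 : ‖b i‖ ≤ 1 := PadicInt.norm_le_one _
    have h2 := norm_factorial (p := p) hi
    have h3 : (0 : ℝ) < ϖ ^ i := by positivity
    calc ϖ ^ (2 * i) * ‖b i‖ ≤ ϖ ^ (2 * i) * 1 := by
          apply mul_le_mul_of_nonneg_left h1; positivity
      _ = ϖ ^ i * ϖ ^ i := by
          rw [mul_one, two_mul, pow_add]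
      _ < ϖ ^ i * ‖((i.factorial : ℕ) : ℚ_[p])‖ := mul_lt_mul_of_pos_left h2 h3
  have hlow : ϖ ^ (2 * i0) ≤ ‖a i0‖ := by
    rw [hNa, le_div_iff₀ (hfac i0)]
    have h1 : ‖b i0‖ = 1 := by
      rw [← PadicInt.isUnit_iff]
      by_contra hcon
      rw [PadicInt.not_isUnit_iff, PadicInt.norm_lt_one_iff_dvd] at hcon
      apply hprim
      rw [hb i0, pow_succ]
      exact mul_dvd_mul_left _ hcon
    rw [h1]
    have h2 : ‖((i0.factorial : ℕ) : ℚ_[p])‖ ≤ 1 := by
      have := PadicInt.norm_le_one ((i0.factorial : ℕ) : ℤ_[p])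
      rw [PadicInt.norm_def] at this
      exact_mod_cast this
    have h3 : (0 : ℝ) ≤ ϖ ^ (2 * i0) := by positivity
    exact mul_le_mul_of_nonneg_left h2 h3
  have hfar : ∀ i, 2 * i0 < i → ‖a i‖ < ϖ ^ (2 * i0) := by
    intro i hi
    refine lt_of_lt_of_le (hup i (by omega)) ?_
    exact pow_le_pow_of_le_one hϖ0.le hϖ1.le hi.le
  -- the last index with the largest norm
  let Q : ℕ → Prop := fun i => ∀ k ≤ 2 * i0, ‖a k‖ ≤ ‖a i‖
  obtain ⟨m0, hm0, hm1⟩ := Finset.exists_max_image (range (2 * i0 + 1)) (fun i => ‖a i‖) ⟨0, by simp⟩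
  have hQm : Q m0 := fun k hk => hm1 k (mem_range.2 (by omega))
  set D := Nat.findGreatest Q (2 * i0) with hD
  have hQD : Q D := Nat.findGreatest_spec (P := Q) (by rw [mem_range] at hm0; omega) hQm
  have hDle : D ≤ 2 * i0 := Nat.findGreatest_le _
  have hgt : ∀ i, D < i → ‖a i‖ < ‖a D‖ := by
    intro i hi
    rcases le_or_gt i (2 * i0) with h | h
    · have h1 := Nat.findGreatest_is_greatest hi h
      have h2 : ∃ k ≤ 2 * i0, ‖a i‖ < ‖a k‖ := by
        by_contra hcon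
        push Not at hcon
        exact h1 hcon
      obtain ⟨k, hk, h3⟩ := h2
      exact lt_of_lt_of_le h3 (hQD k hk)
    · exact lt_of_lt_of_le (hfar i h) (hlow.trans (hQD i0 (by omega)))
  have hD0 : ϖ ^ (2 * i0) ≤ ‖a D‖ := hlow.trans (hQD i0 (by omega))
  refine ⟨D, hDle, fun v t j hdiv hsep => ?_⟩
  -- distinct points
  have hinj : Function.Injective (fun l => ((v l : ℕ) : ℤ)) := by
    intro l m h
    by_contra hne
    apply hsep l m hne
    have h' : ((v l : ℕ) : ℤ) = ((v m : ℕ) : ℤ) := h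
    rw [h', sub_self]
    exact dvd_zero _
  set w : Fin (D + 1) → ℚ_[p] := fun l => ∏ m ∈ univ.erase l,
    ((((v l : ℕ) : ℤ) : ℚ_[p]) - (((v m : ℕ) : ℤ) : ℚ_[p])) with hw
  have hc : ∀ i, ∃ c : ℤ, ∑ l, ((((descPochhammer ℤ i).eval ((v l : ℕ) : ℤ) : ℤ) : ℚ_[p]) / w l) = c ∧
      ((descPochhammer ℤ i).natDegree ≤ D → c = (descPochhammer ℤ i).coeff D) :=
    fun i => div_diff_p (fun l => ((v l : ℕ) : ℤ)) hinj (descPochhammer ℤ i)
  choose c hc1 hc2 using hc
  have hdeg : ∀ i, (descPochhammer ℤ i).natDegree = i := fun i => descPochhammer_natDegree ℤ i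
  have hcD : c D = 1 := by
    rw [hc2 D (hdeg D).le]
    have h1 := (monic_descPochhammer ℤ D).coeff_natDegree
    rwa [hdeg] at h1
  have hclt : ∀ i, i < D → c i = 0 := by
    intro i hi
    rw [hc2 i (by rw [hdeg]; omega)]
    exact coeff_eq_zero_of_natDegree_lt (by rw [hdeg]; exact hi)
  -- the Newton expansion
  set X := D + ∑ l, v l with hX
  have hvX : ∀ l, v l ≤ X := by
    intro l
    have := single_le_sum (f := v) (fun i _ => Nat.zero_le _) (mem_univ l)
    omega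
  have hexp : ∀ l, ((f (v l) : ℤ_[p]) : ℚ_[p]) = ∑ i ∈ range (X + 1), a i *
      (((descPochhammer ℤ i).eval ((v l : ℕ) : ℤ) : ℤ) : ℚ_[p]) := by
    intro l
    have h1 : f (v l) = ∑ k ∈ range (X + 1), ((v l).choose k : ℤ_[p]) * (fwdDiff 1)^[k] f 0 := by
      rw [newton f (v l)]
      apply sum_subset (range_subset_range.2 (by have := hvX l; omega))
      intro k _ hk
      rw [mem_range, not_lt] at hk
      rw [Nat.choose_eq_zero_of_lt (by omega)]
      simp
    rw [h1, PadicInt.coe_sum]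
    apply sum_congr rfl
    intro i _
    rw [hb i, PadicInt.coe_mul, PadicInt.coe_mul, PadicInt.coe_pow, PadicInt.coe_natCast, PadicInt.coe_natCast,
      choose_desc]
    simp only [ha]
    ring
  set S : ℚ_[p] := ∑ l, ((f (v l) : ℤ_[p]) : ℚ_[p]) / w l with hS
  have hS1 : S = ∑ i ∈ range (X + 1), a i * (c i : ℚ_[p]) := by
    rw [hS]
    have h1 : ∀ l, ((f (v l) : ℤ_[p]) : ℚ_[p]) / w l = ∑ i ∈ range (X + 1), a i *
        ((((descPochhammer ℤ i).eval ((v l : ℕ) : ℤ) : ℤ) : ℚ_[p]) / w l) := by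
      intro l
      rw [hexp l, sum_div]
      apply sum_congr rfl
      intro i _
      rw [mul_div_assoc]
    rw [sum_congr rfl (fun l _ => h1 l), sum_comm]
    apply sum_congr rfl
    intro i _
    rw [← mul_sum, hc1 i]
  have hS2 : S = a D + ∑ i ∈ (range (X + 1)).filter (fun i => D < i), a i * (c i : ℚ_[p]) := by
    rw [hS1, ← sum_filter_add_sum_filter_not (range (X + 1)) (fun i => D < i), add_comm]
    congr 1
    rw [sum_eq_single D]
    · rw [hcD]; simp
    · intro i hi hne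
      rw [mem_filter] at hi
      rw [hclt i (by omega)]
      simp
    · intro h
      exfalso
      apply h
      rw [mem_filter, mem_range]
      omega
  have hDpos : 0 < ‖a D‖ := lt_of_lt_of_le (by positivity) hD0
  have hSlow : ‖a D‖ ≤ ‖S‖ := by
    by_contra hcon
    push Not at hcon
    have h1 : ‖∑ i ∈ (range (X + 1)).filter (fun i => D < i), a i * (c i : ℚ_[p])‖ < ‖a D‖ := by
      apply norm_sum_lt _ _ hDpos
      intro i hi
      rw [mem_filter] at hi
      have h2 := hgt i hi.2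
      have h3 : ‖(c i : ℚ_[p])‖ ≤ 1 := Padic.norm_int_le_one _
      rw [norm_mul]
      calc ‖a i‖ * ‖(c i : ℚ_[p])‖ ≤ ‖a i‖ * 1 := mul_le_mul_of_nonneg_left h3 (norm_nonneg _)
        _ < ‖a D‖ := by rw [mul_one]; exact h2
    have h2 : a D = S + (-(∑ i ∈ (range (X + 1)).filter (fun i => D < i), a i * (c i : ℚ_[p]))) := by
      rw [hS2]; ring
    have h3 : ‖a D‖ ≤ max ‖S‖ ‖∑ i ∈ (range (X + 1)).filter (fun i => D < i), a i * (c i : ℚ_[p])‖ := by
      conv_lhs => rw [h2]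
      refine (Padic.nonarchimedean _ _).trans (le_of_eq ?_)
      rw [norm_neg]
    exact absurd (lt_of_le_of_lt h3 (max_lt hcon h1)) (lt_irrefl _)
  -- upper bound
  have hwl : ∀ l, (ϖ ^ t) ^ D ≤ ‖w l‖ := by
    intro l
    have h1 := norm_prod (univ.erase l) (fun m => ((((v l : ℕ) : ℤ) : ℚ_[p]) - (((v m : ℕ) : ℤ) : ℚ_[p])))
      (ε := ϖ ^ t) (by positivity) (by
        intro m hm
        have hne : l ≠ m := fun h => (mem_erase.1 hm).1 h.symm
        have h2 := hsep l m hne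
        by_contra h3
        rw [not_le] at h3
        apply h2
        rw [← PadicInt.pow_p_dvd_int_iff]
        apply dvd_norm
        rw [PadicInt.norm_intCast_eq_padic_norm]
        push_cast
        exact h3.le)
    rwa [card_erase_of_mem (mem_univ l), card_univ, Fintype.card_fin, Nat.add_sub_cancel] at h1
  have hSup : ‖S‖ ≤ ϖ ^ j / (ϖ ^ t) ^ D := by
    apply norm_sum_le _ _ (by positivity)
    intro l _
    rw [norm_div]
    have h1 : ‖((f (v l) : ℤ_[p]) : ℚ_[p])‖ ≤ ϖ ^ j := norm_dvd (hdiv l)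
    have h2 : 0 < ‖w l‖ := lt_of_lt_of_le (by positivity) (hwl l)
    exact div_le_div₀ (by positivity) h1 (by positivity) (hwl l)
  have hfin : ϖ ^ (2 * i0) ≤ ϖ ^ j / (ϖ ^ t) ^ D := hD0.trans (hSlow.trans hSup)
  rw [le_div_iff₀ (by positivity)] at hfin
  have e : ϖ ^ (2 * i0) * (ϖ ^ t) ^ D = ϖ ^ (2 * i0 + t * D) := by
    rw [pow_add, pow_mul ϖ t D]
  rw [e] at hfin
  have h1 : j ≤ 2 * i0 + t * D := by
    by_contra hcon
    push Not at hcon
    have := pow_lt_pow_right_of_lt_one₀ hϖ0 hϖ1 hcon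
    exact absurd (lt_of_le_of_lt hfin this) (lt_irrefl _)
  nlinarith [Nat.mul_le_mul_left t hDle]

end Pool.Agent.J6H80.LRec
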