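import Mathlib
import Pool.Agent.J6H80.LRec.Str

/-!
# Counting: the values of an analytic sequence are spread modulo powers of `p`
-/

set_option autoImplicit false

namespace Pool.Agent.J6H80.LRec

open Finset

variable {p : ℕ} [hp : Fact p.Prime]

theorem Tower.next_le {f : ℕ → ℤ_[p]} {β i : ℕ} {q : ℕ → ℕ → ℤ_[p]} (T : Tower f β i q) (s d x : ℕ) :
    (p : ℤ_[p]) ^ (s + 1) ∣ q (s + d) x - q s x := by
  induction d with
  | zero => simp
  | succ d ih =>
    have h := T.next (s + d) x
    have e : q (s + (d + 1)) x - q s x = (q (s + d + 1) x - q (s + d) x) + (q (s + d) x - q s x) := by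
      rw [add_assoc]; ring
    rw [e]
    exact dvd_add ((pow_dvd_pow _ (by omega)).trans h) ih

theorem Tower.steps {f : ℕ → ℤ_[p]} {β i : ℕ} {q : ℕ → ℕ → ℤ_[p]} (T : Tower f β i q) (s m x : ℕ) :
    ∃ z : ℤ_[p], f (x + p ^ s * m) - f x = p ^ (s + 2 + β) * (m * q s x + p ^ (s + 2) * z) := by
  induction m with
  | zero => exact ⟨0, by simp⟩
  | succ m ih =>
    obtain ⟨z, hz⟩ := ih
    obtain ⟨y, hy⟩ := (T.an s).congr_mul s m x
    refine ⟨z + y, ?_⟩
    have e : x + p ^ s * (m + 1) = (x + p ^ s * m) + p ^ s := by ring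
    have h1 := T.step s (x + p ^ s * m)
    have h2 : q s (x + p ^ s * m) = q s x + p ^ (s + 2) * y := by
      rw [← hy]; ring
    rw [e, h1, h2]
    push_cast
    linear_combination hz

/-- Two points close to each other in the same class with congruent values. -/
theorem Tower.rigid {f : ℕ → ℤ_[p]} {β i : ℕ} {q : ℕ → ℕ → ℤ_[p]} (T : Tower f β i q) {k j x x' : ℕ}
    (hlt : x < x') (hj : p ^ j ∣ x' - x) (hf : (p : ℤ_[p]) ^ k ∣ f x' - f x)
    (hgood : ¬ (p : ℤ_[p]) ^ j ∣ q j x) : p ^ (k - (1 + β + j)) ∣ x' - x := by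
  obtain ⟨s, m, hm, hsm⟩ := Nat.exists_eq_pow_mul_and_not_dvd (n := x' - x) (by omega) p hp.out.ne_one
  have hcop : Nat.Coprime p m := (hp.out.coprime_iff_not_dvd).2 hm
  have hjs : j ≤ s := by
    rw [hsm] at hj
    have h2 : p ^ j ∣ p ^ s := (hcop.pow_left j).dvd_of_dvd_mul_right hj
    exact (Nat.pow_dvd_pow_iff_le_right hp.out.one_lt).1 h2
  obtain ⟨z, hz⟩ := T.steps s m x
  have e : x + p ^ s * m = x' := by omega
  rw [e] at hz
  have hs : k < s + 2 + β + j := by
    by_contra hcon
    push Not at hcon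
    apply hgood
    have h1 : (p : ℤ_[p]) ^ (s + 2 + β + j) ∣ p ^ (s + 2 + β) * (m * q s x + p ^ (s + 2) * z) := by
      rw [← hz]
      exact (pow_dvd_pow _ hcon).trans hf
    rw [pow_add _ (s + 2 + β) j] at h1
    have h2 : (p : ℤ_[p]) ^ j ∣ m * q s x + p ^ (s + 2) * z :=
      (mul_dvd_mul_iff_left (pow_ne _)).1 h1
    have h3 : (p : ℤ_[p]) ^ j ∣ (m : ℤ_[p]) * q s x := by
      refine (dvd_add_left ?_).1 h2
      exact Dvd.dvd.mul_right (pow_dvd_pow _ (by omega)) _
    have h4 : IsUnit (m : ℤ_[p]) := by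
      rw [PadicInt.isUnit_iff, PadicInt.norm_natCast_eq_one_iff]
      exact hcop
    have h6 : (p : ℤ_[p]) ^ j ∣ q s x := (h4.dvd_mul_left).1 h3
    have h7 := T.next_le j (s - j) x
    have e2 : j + (s - j) = s := by omega
    rw [e2] at h7
    have h8 : (p : ℤ_[p]) ^ j ∣ q s x - q j x := (pow_dvd_pow _ (by omega)).trans h7
    exact (dvd_sub_right h6).1 h8
  rw [hsm]
  exact Dvd.dvd.mul_right (pow_dvd_pow p (by omega)) _

theorem count_roots {q : ℕ → ℤ_[p]} (hq : An q) {i : ℕ} (hprim : Prim i q) {t j X L : ℕ}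
    (htj : 2 * i * (t + 1) < j) (A : Finset ℕ) (hA : ∀ x ∈ A, X ≤ x ∧ x < X + L)
    (hdiv : ∀ x ∈ A, (p : ℤ_[p]) ^ j ∣ q x) : A.card ≤ 2 * i * (L / p ^ t + 1) := by
  classical
  obtain ⟨D, hD, h⟩ := few_roots hq hprim
  have hP : 0 < p ^ t := pow_pos hp.out.pos t
  have h1 := card_le_mul_card_image_of_maps_to (s := A) (t := range (L / p ^ t + 1))
    (f := fun x => (x - X) / p ^ t) (by
      intro x hx
      have h1 := hA x hx
      rw [mem_range]
      have h2 : (x - X) / p ^ t ≤ L / p ^ t := Nat.div_le_div_right (by omega)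
      omega) (2 * i) (by
      intro b _
      by_contra hcon
      push Not at hcon
      obtain ⟨B, hB, hBc⟩ := Finset.exists_subset_card_eq (show D + 1 ≤
        ({a ∈ A | (a - X) / p ^ t = b} : Finset ℕ).card by omega)
      have h2 := h (fun l => B.orderEmbOfFin hBc l) t j (by
        intro l
        have h3 := hB (Finset.orderEmbOfFin_mem B hBc l)
        exact hdiv _ (mem_filter.1 h3).1) (by
        intro l m hne hdvd
        have h3 := hB (Finset.orderEmbOfFin_mem B hBc l)
        have h4 := hB (Finset.orderEmbOfFin_mem B hBc m)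
        rw [mem_filter] at h3 h4
        have h5 : B.orderEmbOfFin hBc l ≠ B.orderEmbOfFin hBc m :=
          fun h => hne ((B.orderEmbOfFin hBc).injective h)
        have h6 := hA _ h3.1
        have h7 := hA _ h4.1
        set y := B.orderEmbOfFin hBc l with hy
        set z := B.orderEmbOfFin hBc m with hz
        have h8 : (p : ℤ) ^ t ≤ |(y : ℤ) - z| := by
          apply Int.le_of_dvd
          · rw [abs_pos, sub_ne_zero]
            exact_mod_cast h5
          · rwa [dvd_abs]
        have h9 : |(y : ℤ) - z| < (p : ℤ) ^ t := by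
          have e1 := Nat.div_add_mod (y - X) (p ^ t)
          have e2 := Nat.div_add_mod (z - X) (p ^ t)
          have l1 := Nat.mod_lt (y - X) hP
          have l2 := Nat.mod_lt (z - X) hP
          rw [h3.2] at e1
          rw [h4.2] at e2
          rw [abs_lt]
          have h10 : ((p ^ t : ℕ) : ℤ) = (p : ℤ) ^ t := by push_cast; rfl
          rw [← h10]
          generalize p ^ t = P at e1 e2 l1 l2 ⊢
          have e3 : y - X = P * b + (y - X) % P := e1.symm
          have e4 : z - X = P * b + (z - X) % P := e2.symm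
          constructor <;> omega
        linarith)
      omega)
  rwa [card_range] at h1

end Pool.Agent.J6H80.LRec
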