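import Mathlib
import Pool.Agent.J6H80.LRec.Lim

/-!
# The class of the eventually analytic sequences of integers
-/

set_option autoImplicit false

namespace Pool.Agent.J6H80.LRec

open Finset

/-- For `n ≥ c (s + i)` the `i`-th difference of `u` at `n` with step `M` is divisible by
`D ^ (2 (s + i))`. -/
def EvM (D M c s : ℕ) (u : ℕ → ℤ) : Prop :=
  ∀ i n : ℕ, c * (s + i) ≤ n → (D : ℤ) ^ (2 * (s + i)) ∣ (fwdDiff M)^[i] u n

theorem EvM.diff {D M c s : ℕ} {u : ℕ → ℤ} (h : EvM D M c s u) : EvM D M c (s + 1) (fwdDiff M u) := by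
  intro i n hn
  have e : s + 1 + i = s + (i + 1) := by omega
  have := h (i + 1) n (by rwa [← e])
  rw [Function.iterate_succ_apply] at this
  rwa [e]

theorem EvM.of_diff {D M c s : ℕ} {u : ℕ → ℤ} (h0 : ∀ n, c * s ≤ n → (D : ℤ) ^ (2 * s) ∣ u n)
    (h : EvM D M c (s + 1) (fwdDiff M u)) : EvM D M c s u := by
  intro i n hn
  rcases i with _ | i
  · exact h0 n hn
  · rw [Function.iterate_succ_apply]
    have e : s + 1 + i = s + (i + 1) := by omega
    have := h i n (by rwa [e])
    rwa [e] at this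

theorem EvM.dvd {D M c s : ℕ} {u : ℕ → ℤ} (h : EvM D M c s u) {n : ℕ} (hn : c * s ≤ n) :
    (D : ℤ) ^ (2 * s) ∣ u n := h 0 n hn

theorem EvM.shift {D M c s : ℕ} {u : ℕ → ℤ} (h : EvM D M c s u) (a : ℕ) :
    EvM D M c s (fun x => u (x + a)) := by
  intro i n hn
  rw [fwdDiff_iter_comp_add M u a i n]
  exact h i (n + a) (by omega)

theorem EvM.add {D M c s : ℕ} {f g : ℕ → ℤ} (hf : EvM D M c s f) (hg : EvM D M c s g) :
    EvM D M c s (fun x => f x + g x) := by
  intro i n hn
  have e : (fun x => f x + g x) = f + g := rfl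
  rw [e, fwdDiff_iter_add]
  exact dvd_add (hf i n hn) (hg i n hn)

theorem EvM.zero (D M c s : ℕ) : EvM D M c s (fun _ => 0) := by
  intro i n _
  have h := (fwdDiff_iter_const_smul (h := M) (0 : ℤ) (fun _ : ℕ => (0 : ℤ)) i)
  have e : (fun _ : ℕ => (0 : ℤ)) = (0 : ℤ) • (fun _ : ℕ => (0 : ℤ)) := by ext; simp
  rw [e, h]
  simp

theorem EvM.sum {D M c s : ℕ} {ι : Type*} (S : Finset ι) (f : ι → ℕ → ℤ) (h : ∀ k ∈ S, EvM D M c s (f k)) :
    EvM D M c s (fun x => ∑ k ∈ S, f k x) := by
  classical
  induction S using Finset.induction_on with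
  | empty => simpa using EvM.zero D M c s
  | insert a S ha ih =>
    have h1 := (h a (mem_insert_self _ _)).add (ih (fun k hk => h k (mem_insert_of_mem hk)))
    have e : (fun x => ∑ k ∈ insert a S, f k x) = (fun x => f a x + ∑ k ∈ S, f k x) := by
      ext x; rw [sum_insert ha]
    rw [e]; exact h1

theorem EvM.mono {D M c c' s s' : ℕ} {u : ℕ → ℤ} (h : EvM D M c s u) (hs : s' ≤ s) (hc : c * s ≤ c' * s')
    (hcc : c ≤ c') : EvM D M c' s' u := by
  intro i n hn
  refine (pow_dvd_pow _ (by omega)).trans (h i n ?_)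
  have : c * i ≤ c' * i := Nat.mul_le_mul_right i hcc
  rw [mul_add] at hn ⊢
  omega

/-- Multiples of the step. -/
theorem EvM.mul_step {D M c : ℕ} (k : ℕ) {s : ℕ} {u : ℕ → ℤ} (h : EvM D M c s u) : EvM D (M * k) c s u := by
  have key : ∀ (i s : ℕ) (u : ℕ → ℤ), EvM D M c s u → EvM D M c (s + i) ((fwdDiff (M * k))^[i] u) := by
    intro i
    induction i with
    | zero => intro s u h; exact h
    | succ i ih =>
      intro s u h
      rw [Function.iterate_succ_apply]
      have h1 : EvM D M c (s + 1) (fwdDiff (M * k) u) := by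
        have e : fwdDiff (M * k) u = fun x => ∑ j ∈ range k, fwdDiff M u (x + M * j) := by
          ext x
          simp only [fwdDiff]
          have h2 := Finset.sum_range_sub (fun j => u (x + M * j)) k
          rw [mul_zero, add_zero] at h2
          rw [← h2]
          apply sum_congr rfl
          intro j _
          have e3 : x + M * (j + 1) = x + M * j + M := by ring
          rw [e3]
        rw [e]
        exact EvM.sum _ _ (fun j _ => h.diff.shift (M * j))
      have h2 := ih (s + 1) _ h1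
      have e : s + 1 + i = s + (i + 1) := by omega
      rwa [e] at h2
  intro i n hn
  exact (key i s u h).dvd hn

theorem fwdDiff_mul_eq (M : ℕ) (f g : ℕ → ℤ) : fwdDiff M (fun x => f x * g x) =
    fun x => fwdDiff M f x * g (x + M) + f x * fwdDiff M g x := by
  ext x
  simp only [fwdDiff]
  ring

theorem EvM.mul {D M c : ℕ} {s t : ℕ} {f g : ℕ → ℤ} (hf : EvM D M c s f) (hg : EvM D M c t g) :
    EvM D M c (s + t) (fun x => f x * g x) := by
  have key : ∀ (i s t : ℕ) (f g : ℕ → ℤ), EvM D M c s f → EvM D M c t g → ∀ n, c * (s + t + i) ≤ n →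
      (D : ℤ) ^ (2 * (s + t + i)) ∣ (fwdDiff M)^[i] (fun x => f x * g x) n := by
    intro i
    induction i with
    | zero =>
      intro s t f g hf hg n hn
      rw [add_zero, mul_add] at hn
      rw [add_zero, mul_add, pow_add]
      exact mul_dvd_mul (hf.dvd (by omega)) (hg.dvd (by omega))
    | succ i ih =>
      intro s t f g hf hg n hn
      rw [Function.iterate_succ_apply, fwdDiff_mul_eq]
      have e : (fun x => fwdDiff M f x * g (x + M) + f x * fwdDiff M g x) =
        (fun x => fwdDiff M f x * g (x + M)) + (fun x => f x * fwdDiff M g x) := rfl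
      rw [e, fwdDiff_iter_add]
      apply dvd_add
      · have e2 : s + 1 + t + i = s + t + (i + 1) := by omega
        have := ih (s + 1) t _ _ hf.diff (hg.shift M) n (by rwa [e2])
        rwa [e2] at this
      · have e2 : s + (t + 1) + i = s + t + (i + 1) := by omega
        have := ih s (t + 1) _ _ hf hg.diff n (by rwa [e2])
        rwa [e2] at this
  intro i n hn
  exact key i s t f g hf hg n hn

theorem EvM.sub {D M c : ℕ} {u : ℕ → ℤ} (h : EvM D M c 0 u) (hM : 1 ≤ M) (a : ℕ) :
    Ev D c (fun x => u (a + M * x)) := by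
  intro i
  have key : ∀ (i : ℕ) (u : ℕ → ℤ) (n : ℕ), (fwdDiff 1)^[i] (fun x => u (a + M * x)) n =
      (fwdDiff M)^[i] u (a + M * n) := by
    intro i
    induction i with
    | zero => intro u n; rfl
    | succ i ih =>
      intro u n
      rw [Function.iterate_succ_apply, Function.iterate_succ_apply, ← ih (fwdDiff M u) n]
      have e : fwdDiff 1 (fun x => u (a + M * x)) = fun x => fwdDiff M u (a + M * x) := by
        ext x
        simp only [fwdDiff]
        have e2 : a + M * (x + 1) = a + M * x + M := by ring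
        rw [e2]
      rw [e]
  intro n hn
  rw [key]
  have := h i (a + M * n) (by
    rw [zero_add]
    have : n ≤ M * n := Nat.le_mul_of_pos_left n hM
    omega)
  rwa [zero_add] at this

/-- The map of the states modulo `D ^ 2`. -/
def stp (E : LinearRecurrence ℤ) (D : ℕ) (s : Fin E.order → ZMod (D ^ 2)) : Fin E.order → ZMod (D ^ 2) :=
  fun i => if h : (i : ℕ) + 1 < E.order then s ⟨i + 1, h⟩ else ∑ k, (E.coeffs k : ZMod (D ^ 2)) * s k

theorem stp_iter (E : LinearRecurrence ℤ) (D : ℕ) {u : ℕ → ℤ} (hu : E.IsSolution u) (n m : ℕ) :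
    (fun i : Fin E.order => ((u (n + m + i) : ℤ) : ZMod (D ^ 2))) =
      (stp E D)^[m] (fun i : Fin E.order => ((u (n + i) : ℤ) : ZMod (D ^ 2))) := by
  induction m with
  | zero => rfl
  | succ m ih =>
    rw [Function.iterate_succ_apply', ← ih]
    ext i
    simp only [stp]
    split_ifs with h
    · have e : n + (m + 1) + (i : ℕ) = n + m + ((i : ℕ) + 1) := by ring
      rw [e]
    · have hi := i.2
      have e : n + (m + 1) + (i : ℕ) = (n + m) + E.order := by omega
      rw [e, hu (n + m)]
      push_cast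
      rfl

/-- If the map of the states is eventually periodic then the solutions are eventually analytic. -/
theorem lrs_core (E : LinearRecurrence ℤ) {D : ℕ} (hD : 1 ≤ D) {k1 M : ℕ}
    (hk : (stp E D)^[k1] = (stp E D)^[k1 + M]) {u : ℕ → ℤ} (hu : E.IsSolution u) : EvM D M k1 0 u := by
  -- congruences
  have hcon : ∀ u : ℕ → ℤ, E.IsSolution u → ∀ n, k1 ≤ n → ((D : ℤ) ^ 2) ∣ u (n + M) - u n := by
    intro u hu n hn
    rcases Nat.eq_zero_or_pos E.order with h0 | h0
    · have hz : ∀ n, u n = 0 := by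
        intro n
        have := hu n
        have e : n + E.order = n := by omega
        rw [e] at this
        rw [this]
        apply sum_eq_zero
        intro i _
        exact absurd i.2 (by omega)
      rw [hz, hz]; simp
    · have h1 := stp_iter E D hu (n - k1) k1
      have h2 := stp_iter E D hu (n - k1) (k1 + M)
      rw [hk] at h1
      have h3 := congrFun (h1.trans h2.symm) ⟨0, h0⟩
      simp only at h3
      have e1 : n - k1 + k1 + 0 = n := by omega
      have e2 : n - k1 + (k1 + M) + 0 = n + M := by omega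
      rw [e1, e2] at h3
      have h4 := (ZMod.intCast_eq_intCast_iff_dvd_sub _ _ _).1 h3
      push_cast at h4
      exact h4
  have key : ∀ (i : ℕ) (u : ℕ → ℤ), E.IsSolution u → ∀ n, k1 * i ≤ n →
      (D : ℤ) ^ (2 * i) ∣ (fwdDiff M)^[i] u n := by
    intro i
    induction i with
    | zero => intro u _ n _; simp
    | succ i ih =>
      intro u hu n hn
      have h1 : ∀ n, ∃ y, u (n + k1 + M) - u (n + k1) = (D : ℤ) ^ 2 * y := fun n => hcon u hu (n + k1) (by omega)
      choose w hw using h1
      have hD2 : ((D : ℤ) ^ 2) ≠ 0 := by positivity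
      have hws : E.IsSolution w := by
        intro n
        apply mul_left_cancel₀ hD2
        rw [← hw, mul_sum]
        have e1 : n + E.order + k1 + M = (n + k1 + M) + E.order := by ring
        have e2 : n + E.order + k1 = (n + k1) + E.order := by ring
        rw [e1, e2, hu, hu, ← sum_sub_distrib]
        apply sum_congr rfl
        intro k _
        have e3 : n + k1 + M + (k : ℕ) = n + k + k1 + M := by ring
        have e4 : n + k1 + (k : ℕ) = n + k + k1 := by ring
        rw [e3, e4, ← mul_sub, hw]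
        ring
      rw [mul_add, mul_one] at hn
      have h2 := ih w hws (n - k1) (by omega)
      rw [Function.iterate_succ_apply]
      have h3 : (fwdDiff M)^[i] (fwdDiff M u) n = (D : ℤ) ^ 2 * (fwdDiff M)^[i] w (n - k1) := by
        have e1 : (fwdDiff M)^[i] (fun r => fwdDiff M u (r + k1)) (n - k1) =
            (fwdDiff M)^[i] (fwdDiff M u) (n - k1 + k1) := fwdDiff_iter_comp_add M (fwdDiff M u) k1 i (n - k1)
        have e2 : n - k1 + k1 = n := by omega
        rw [e2] at e1
        rw [← e1]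
        have e3 : (fun r => fwdDiff M u (r + k1)) = ((D : ℤ) ^ 2) • w := by
          ext r
          simp only [fwdDiff, Pi.smul_apply, smul_eq_mul]
          rw [← hw r]
        rw [e3, fwdDiff_iter_const_smul, Pi.smul_apply, smul_eq_mul]
      rw [h3, show 2 * (i + 1) = 2 + 2 * i by ring, pow_add]
      exact mul_dvd_mul_left _ h2
  intro i n hn
  rw [zero_add] at hn ⊢
  exact key i u hu n hn

/-- Linear recurrence sequences. -/
theorem lrs (E : LinearRecurrence ℤ) {D : ℕ} (hD : 1 ≤ D) : ∃ M c : ℕ, 1 ≤ M ∧ ∀ u : ℕ → ℤ, E.IsSolution u →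
    EvM D M c 0 u := by
  classical
  haveI : NeZero (D ^ 2) := ⟨by positivity⟩
  obtain ⟨k1, k2, hne, hk⟩ := Finite.exists_ne_map_eq_of_infinite (fun k : ℕ => (stp E D)^[k])
  wlog hlt : k1 < k2 generalizing k1 k2 with H
  · exact H k2 k1 hne.symm hk.symm (by omega)
  refine ⟨k2 - k1, k1, by omega, fun u hu => lrs_core E hD ?_ hu⟩
  have e : k1 + (k2 - k1) = k2 := by omega
  rw [e]; exact hk

theorem stp_inj (E : LinearRecurrence ℤ) {D : ℕ} (hpos : 0 < E.order)
    (hcop : IsCoprime (E.coeffs ⟨0, hpos⟩) (D : ℤ)) : Function.Injective (stp E D) := by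
  intro v w h
  have h1 : ∀ j : Fin E.order, (j : ℕ) ≠ 0 → v j = w j := by
    intro j hj
    have h2 := congrFun h ⟨(j : ℕ) - 1, by omega⟩
    have h3 : (j : ℕ) - 1 + 1 < E.order := by have := j.2; omega
    unfold stp at h2
    simp only [dif_pos h3] at h2
    have e : (⟨(j : ℕ) - 1 + 1, h3⟩ : Fin E.order) = j := by
      apply Fin.ext
      simp only
      omega
    rwa [e] at h2
  have h2 := congrFun h ⟨E.order - 1, by omega⟩
  have h3 : ¬ (E.order - 1 + 1 < E.order) := by omega
  unfold stp at h2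
  simp only [dif_neg h3] at h2
  have h4 : ∑ j, (E.coeffs j : ZMod (D ^ 2)) * (v j - w j) = 0 := by
    simp only [mul_sub, sum_sub_distrib, h2, sub_self]
  rw [Finset.sum_eq_single (⟨0, hpos⟩ : Fin E.order) (fun j _ hj => by
    rw [h1 j (fun h => hj (Fin.ext h)), sub_self, mul_zero]) (fun h => absurd (mem_univ _) h)] at h4
  obtain ⟨x, y, hxy⟩ := hcop.pow_right (n := 2)
  have h5 : (x : ZMod (D ^ 2)) * ((E.coeffs ⟨0, hpos⟩ : ℤ) : ZMod (D ^ 2)) = 1 := by
    have h6 : ((D ^ 2 : ℕ) : ℤ) ∣ 1 - x * E.coeffs ⟨0, hpos⟩ := by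
      push_cast
      exact ⟨y, by linarith⟩
    have h7 := (ZMod.intCast_eq_intCast_iff_dvd_sub (x * E.coeffs ⟨0, hpos⟩) 1 (D ^ 2)).2 h6
    push_cast at h7
    exact h7
  have h6 : v ⟨0, hpos⟩ = w ⟨0, hpos⟩ := by
    have h7 : (x : ZMod (D ^ 2)) * (((E.coeffs ⟨0, hpos⟩ : ℤ) : ZMod (D ^ 2)) *
        (v ⟨0, hpos⟩ - w ⟨0, hpos⟩)) = 0 := by rw [h4, mul_zero]
    rw [← mul_assoc, h5, one_mul] at h7
    exact sub_eq_zero.1 h7
  ext j
  by_cases hj : (j : ℕ) = 0
  · have : j = ⟨0, hpos⟩ := Fin.ext hj
    rw [this, h6]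
  · rw [h1 j hj]

/-- Linear recurrences with constant coefficient coprime to `D`. -/
theorem lrs_unit (E : LinearRecurrence ℤ) {D : ℕ} (hD : 1 ≤ D)
    (hcop : ∀ h : 0 < E.order, IsCoprime (E.coeffs ⟨0, h⟩) (D : ℤ)) : ∃ M : ℕ, 1 ≤ M ∧
    ∀ u : ℕ → ℤ, E.IsSolution u → EvM D M 0 0 u := by
  classical
  haveI : NeZero (D ^ 2) := ⟨by positivity⟩
  have hinj : Function.Injective (stp E D) := by
    rcases Nat.eq_zero_or_pos E.order with h0 | hpos
    · intro v w _
      ext j
      exact absurd j.2 (by omega)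
    · exact stp_inj E hpos (hcop hpos)
  obtain ⟨k1, k2, hne, hk⟩ := Finite.exists_ne_map_eq_of_infinite (fun k : ℕ => (stp E D)^[k])
  wlog hlt : k1 < k2 generalizing k1 k2 with H
  · exact H k2 k1 hne.symm hk.symm (by omega)
  refine ⟨k2 - k1, by omega, fun u hu => lrs_core E hD ?_ hu⟩
  ext v
  have h1 : (stp E D)^[k1] v = (stp E D)^[k2] v := congrFun hk v
  have e : k2 = k1 + (k2 - k1) := by omega
  rw [e, Function.iterate_add_apply] at h1
  have h2 := hinj.iterate k1 h1
  rw [Function.iterate_zero, zero_add]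
  simp only [id_eq]
  exact congrFun h2 _

/-- For such sequences `p`-adic convergence along an arithmetic progression means constancy along an
arithmetic progression. -/
theorem const_of_settles {D M : ℕ} {u : ℕ → ℤ} (hu : EvM D M 0 0 u) (hM : 1 ≤ M) {p : ℕ} (hp : p.Prime)
    (hpD : p ∣ D) {a M' : ℕ} (hM' : 1 ≤ M') (hs : Settles p (fun x => u (a + M' * x))) :
    ∀ x, u (a + (M' * M) * x) = u a := by
  haveI : Fact p.Prime := ⟨hp⟩
  have h1 := (hu.mul_step M')
  rw [mul_comm M M'] at h1
  have h2 := (h1.sub (Nat.mul_pos hM' hM) a).of_dvd hpD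
  set w : ℕ → ℤ := fun x => u (a + (M' * M) * x) with hw
  have h3 : ∀ k x, (p : ℤ) ^ k ∣ w x - w 0 := by
    intro k x
    obtain ⟨x0, hx0⟩ := hs k
    have key : ∀ x, (p : ℤ) ^ k ∣ w x - u (a + M' * x0) := by
      intro x
      set m := x0 + k with hm
      have h4 := h2.congr (T := m) (y := x) (n := p ^ m) (by omega) dvd_rfl
      have hpm : m < p ^ m := Nat.lt_pow_self hp.one_lt
      have h5 := hx0 (M * (x + p ^ m)) (by
        have : x + p ^ m ≤ M * (x + p ^ m) := Nat.le_mul_of_pos_left _ hM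
        omega)
      simp only at h5
      have e : a + M' * (M * (x + p ^ m)) = a + (M' * M) * (x + p ^ m) := by ring
      rw [e] at h5
      have h6 : (p : ℤ) ^ k ∣ w (x + p ^ m) - w x := (pow_dvd_pow _ (by omega)).trans h4
      have e2 : w x - u (a + M' * x0) = (w (x + p ^ m) - u (a + M' * x0)) - (w (x + p ^ m) - w x) := by ring
      rw [e2]
      exact dvd_sub h5 h6
    have e : w x - w 0 = (w x - u (a + M' * x0)) - (w 0 - u (a + M' * x0)) := by ring
    rw [e]
    exact dvd_sub (key x) (key 0)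
  intro x
  have h4 : w x - w 0 = 0 := by
    by_contra hne
    have h5 : (w x - w 0).natAbs < p ^ (w x - w 0).natAbs := Nat.lt_pow_self hp.one_lt
    have h6 := Int.natAbs_dvd_natAbs.2 (h3 (w x - w 0).natAbs x)
    rw [Int.natAbs_pow, Int.natAbs_natCast] at h6
    have h7 := Nat.le_of_dvd (Int.natAbs_pos.2 hne) h6
    omega
  have h5 : w x = w 0 := by linarith
  simpa [hw] using h5

/-! ### Sequences whose `i`-th differences are divisible by `i !` -/

theorem fwdDiff_step (M : ℕ) (u : ℕ → ℤ) : fwdDiff M u =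
    fun n => ∑ j ∈ range M, (M.choose (j + 1) : ℤ) * (fwdDiff 1)^[j + 1] u n := by
  ext n
  simp only [fwdDiff]
  have h := shift_eq_sum_fwdDiff_iter 1 u M n
  simp only [smul_eq_mul, mul_one, nsmul_eq_mul] at h
  rw [h, sum_range_succ']
  simp

theorem fact_analytic {u : ℕ → ℤ} (h : ∀ i n : ℕ, (i.factorial : ℤ) ∣ (fwdDiff 1)^[i] u n) {D : ℕ}
    (hD : 1 ≤ D) : EvM D (D ^ 2) 0 0 u := by
  set M := D ^ 2 with hM
  have hM0 : 1 ≤ M := Nat.one_le_pow _ _ hD
  have key : ∀ i : ℕ, ∀ u : ℕ → ℤ, (∀ i n : ℕ, (i.factorial : ℤ) ∣ (fwdDiff 1)^[i] u n) →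
      ∀ n, (M : ℤ) ^ i ∣ (fwdDiff M)^[i] u n := by
    intro i
    induction i with
    | zero => intro u _ n; simp
    | succ i ih =>
      intro u h n
      have h1 : ∀ i n, ((M * i.factorial : ℕ) : ℤ) ∣ (fwdDiff 1)^[i] (fwdDiff M u) n := by
        intro i n
        rw [fwdDiff_step]
        have e : (fun n => ∑ j ∈ range M, (M.choose (j + 1) : ℤ) * (fwdDiff 1)^[j + 1] u n) =
            ∑ j ∈ range M, (M.choose (j + 1) : ℤ) • (fwdDiff 1)^[j + 1] u := by
          ext n
          rw [Finset.sum_apply]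
          simp
        rw [e, fwdDiff_iter_finsetSum, Finset.sum_apply]
        apply dvd_sum
        intro j _
        rw [fwdDiff_iter_const_smul, Pi.smul_apply, smul_eq_mul, ← Function.iterate_add_apply]
        have h2 : ((M * i.factorial : ℕ) : ℤ) ∣ ((M.choose (j + 1) * (i + (j + 1)).factorial : ℕ) : ℤ) := by
          rw [Int.natCast_dvd_natCast]
          have h3 : i.factorial * (j + 1).factorial ∣ (i + (j + 1)).factorial :=
            Nat.factorial_mul_factorial_dvd_factorial_add i (j + 1)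
          refine dvd_trans ?_ (Nat.mul_dvd_mul_left _ h3)
          have h4 : M ∣ M.choose (j + 1) * (j + 1).factorial := by
            obtain ⟨m, hm⟩ : ∃ m, M = m + 1 := ⟨M - 1, by omega⟩
            rw [hm]
            have h5 := Nat.add_one_mul_choose_eq m j
            refine ⟨m.choose j * j.factorial, ?_⟩
            rw [Nat.factorial_succ]
            calc (m + 1).choose (j + 1) * ((j + 1) * j.factorial) =
                ((m + 1).choose (j + 1) * (j + 1)) * j.factorial := by ring
              _ = (m + 1) * (m.choose j * j.factorial) := by rw [← h5]; ring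
          obtain ⟨z, hz⟩ := h4
          refine ⟨z, ?_⟩
          calc M.choose (j + 1) * (i.factorial * (j + 1).factorial) =
              (M.choose (j + 1) * (j + 1).factorial) * i.factorial := by ring
            _ = M * i.factorial * z := by rw [hz]; ring
        refine h2.trans ?_
        rw [Nat.cast_mul]
        exact mul_dvd_mul_left _ (h (i + (j + 1)) n)
      have h2 : ∀ n, ∃ w, fwdDiff M u n = M * w := by
        intro n
        have := h1 0 n
        rw [Nat.factorial_zero, mul_one, Function.iterate_zero, id_eq] at this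
        exact this
      choose w hw using h2
      have e : fwdDiff M u = (M : ℤ) • w := by
        ext x
        simp only [Pi.smul_apply, smul_eq_mul]
        exact hw x
      have hMz : (M : ℤ) ≠ 0 := by positivity
      have h3 : ∀ i n : ℕ, (i.factorial : ℤ) ∣ (fwdDiff 1)^[i] w n := by
        intro i n
        have h4 := h1 i n
        rw [e, fwdDiff_iter_const_smul, Pi.smul_apply, smul_eq_mul] at h4
        push_cast at h4
        exact Int.dvd_of_mul_dvd_mul_left hMz h4
      rw [Function.iterate_succ_apply, e, fwdDiff_iter_const_smul, Pi.smul_apply, smul_eq_mul, pow_succ, mul_comm]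
      exact mul_dvd_mul_left _ (ih w h3 n)
  intro i n _
  rw [zero_add, pow_mul]
  have := key i u h n
  rw [hM] at this
  push_cast at this
  exact this

/-- The shifted binomial sums. -/
def Dm (c : ℕ → ℤ) (i n : ℕ) : ℤ := ∑ j ∈ range (n + 1), c (i + j) * (i + j).factorial * (n.choose j : ℤ)

theorem Dm_diff (c : ℕ → ℤ) (i : ℕ) : fwdDiff 1 (Dm c i) = Dm c (i + 1) := by
  ext n
  simp only [fwdDiff]
  have h1 : Dm c i (n + 1) = ∑ j ∈ range (n + 1), c (i + (j + 1)) * (i + (j + 1)).factorial *
      (((n.choose j : ℕ) : ℤ) + ((n.choose (j + 1) : ℕ) : ℤ)) + c (i + 0) * (i + 0).factorial := by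
    unfold Dm
    rw [sum_range_succ', Nat.choose_zero_right, Nat.cast_one, mul_one]
    have h4 : ∀ j ∈ range (n + 1), c (i + (j + 1)) * (i + (j + 1)).factorial * (((n + 1).choose (j + 1) : ℕ) : ℤ) =
        c (i + (j + 1)) * (i + (j + 1)).factorial * (((n.choose j : ℕ) : ℤ) + ((n.choose (j + 1) : ℕ) : ℤ)) := by
      intro j _
      rw [Nat.choose_succ_succ]
      push_cast
      ring
    rw [sum_congr rfl h4]
  have h2 : Dm c i n = ∑ j ∈ range (n + 1), c (i + (j + 1)) * (i + (j + 1)).factorial *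
      ((n.choose (j + 1) : ℕ) : ℤ) + c (i + 0) * (i + 0).factorial := by
    have h3 : ∑ j ∈ range (n + 2), c (i + j) * (i + j).factorial * (n.choose j : ℤ) = Dm c i n := by
      rw [sum_range_succ]
      unfold Dm
      rw [Nat.choose_eq_zero_of_lt (Nat.lt_succ_self n)]
      simp
    rw [← h3, sum_range_succ']
    simp
  have h3 : Dm c (i + 1) n = ∑ j ∈ range (n + 1), c (i + (j + 1)) * (i + (j + 1)).factorial *
      ((n.choose j : ℕ) : ℤ) := by
    unfold Dm
    apply sum_congr rfl
    intro j _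
    have e : i + 1 + j = i + (j + 1) := by ring
    rw [e]
  rw [h1, h2, h3]
  simp only [mul_add, sum_add_distrib]
  ring

theorem binom_analytic (c : ℕ → ℤ) {D : ℕ} (hD : 1 ≤ D) :
    EvM D (D ^ 2) 0 0 (fun n => ∑ k ∈ range (n + 1), c k * k.factorial * (n.choose k : ℤ)) := by
  have e : (fun n => ∑ k ∈ range (n + 1), c k * k.factorial * (n.choose k : ℤ)) = Dm c 0 := by
    ext n
    unfold Dm
    apply sum_congr rfl
    intro j _
    rw [zero_add]
  rw [e]
  apply fact_analytic _ hD
  have h1 : ∀ i, (fwdDiff 1)^[i] (Dm c 0) = Dm c i := by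
    intro i
    induction i with
    | zero => rfl
    | succ i ih => rw [Function.iterate_succ_apply', ih, Dm_diff]
  intro i n
  rw [h1]
  unfold Dm
  apply dvd_sum
  intro j _
  have h2 : ((i.factorial : ℕ) : ℤ) ∣ (((i + j).factorial : ℕ) : ℤ) :=
    Int.natCast_dvd_natCast.2 (Nat.factorial_dvd_factorial (Nat.le_add_right i j))
  exact Dvd.dvd.mul_right (Dvd.dvd.mul_left h2 _) _

end Pool.Agent.J6H80.LRec
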