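import Mathlib
import Pool.Agent.J6H80.LRec.Lim

/-!
# Counting modulo powers of a composite number
-/

set_option autoImplicit false

namespace Pool.Agent.J6H80.LRec

open Finset

/-- What is needed about one prime. -/
def Part (p c : ℕ) (w : ℕ → ℤ) (β i : ℕ) (G : ℕ → ℕ → Prop) : Prop :=
  (∀ j k x x' : ℕ, x < x' → p ^ j ∣ x' - x → c * (k + 1) ≤ x → (p : ℤ) ^ k ∣ w x' - w x → G j x →
    p ^ (k - (1 + β + j)) ∣ x' - x) ∧
  (∀ (t j X L : ℕ) (A : Finset ℕ), 2 * i * (t + 1) < j → (∀ x ∈ A, X ≤ x ∧ x < X + L) →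
    (∀ x ∈ A, ¬ G j x) → A.card ≤ 2 * i * (L / 2 ^ t + 1))

theorem prime_part {p : ℕ} (hp : p.Prime) {c : ℕ} {w : ℕ → ℤ} (h : Ev p c w) (hns : ¬ Settles p w) :
    ∃ (β i : ℕ) (G : ℕ → ℕ → Prop), Part p c w β i G := by
  haveI : Fact p.Prime := ⟨hp⟩
  obtain ⟨v, hv, hvw⟩ := h.lim
  obtain ⟨β, i, q, T⟩ := hv.tower (ne_of_not_settles hvw hns)
  refine ⟨β, i, fun j x => ¬ (p : ℤ_[p]) ^ j ∣ q j x, ?_, ?_⟩
  · intro j k x x' hlt hj hc hk hG
    apply T.rigid hlt hj _ hG
    have h1 := (pow_dvd_pow (p : ℤ_[p]) (show k ≤ k + 2 by omega)).trans (hvw k x hc)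
    have h2 := (pow_dvd_pow (p : ℤ_[p]) (show k ≤ k + 2 by omega)).trans (hvw k x' (by omega))
    have h3 := (PadicInt.pow_p_dvd_int_iff (p := p) k _).2 hk
    push_cast at h3
    have e : v x' - v x = (v x' - ((w x' : ℤ) : ℤ_[p])) - (v x - ((w x : ℤ) : ℤ_[p])) +
      (((w x' : ℤ) : ℤ_[p]) - ((w x : ℤ) : ℤ_[p])) := by ring
    rw [e]
    exact dvd_add (dvd_sub h2 h1) h3
  · intro t j X L A htj hA hG
    refine (count_roots (T.an j) (T.prim j) (X := X) (L := L) htj A hA (fun x hx => not_not.1 (hG x hx))).trans ?_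
    apply Nat.mul_le_mul_left
    apply Nat.add_le_add_right
    exact Nat.div_le_div_left (Nat.pow_le_pow_left hp.two_le t) (by positivity)

theorem Part.mono {p c : ℕ} {w : ℕ → ℤ} {β i β' i' : ℕ} {G : ℕ → ℕ → Prop} (h : Part p c w β i G)
    (hβ : β ≤ β') (hi : i ≤ i') : Part p c w β' i' G := by
  refine ⟨fun j k x x' h1 h2 h3 h4 h5 => ?_, fun t j X L A h1 h2 h3 => ?_⟩
  · exact (pow_dvd_pow p (by omega)).trans (h.1 j k x x' h1 h2 h3 h4 h5)
  · have h4 : 2 * i * (t + 1) ≤ 2 * i' * (t + 1) := Nat.mul_le_mul_right _ (by omega)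
    refine (h.2 t j X L A (by omega) h2 h3).trans ?_
    exact Nat.mul_le_mul_right _ (by omega)

theorem exists_parts {d c : ℕ} {w : ℕ → ℤ} (h : Ev d c w)
    (hns : ∀ p : ℕ, p.Prime → p ∣ d → ¬ Settles p w) :
    ∃ (β i : ℕ) (G : ℕ → ℕ → ℕ → Prop), ∀ p ∈ d.primeFactors, Part p c w β i (G p) := by
  have h1 : ∀ p ∈ d.primeFactors, ∃ (β i : ℕ) (G : ℕ → ℕ → Prop), Part p c w β i G := by
    intro p hp
    rw [Nat.mem_primeFactors] at hp
    exact prime_part hp.1 (h.of_dvd hp.2.1) (hns p hp.1 hp.2.1)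
  choose! β i G hG using h1
  refine ⟨∑ p ∈ d.primeFactors, β p, ∑ p ∈ d.primeFactors, i p, G, fun p hp => ?_⟩
  exact (hG p hp).mono (single_le_sum (fun _ _ => Nat.zero_le _) hp) (single_le_sum (fun _ _ => Nat.zero_le _) hp)

theorem pow_dvd_of_primes {d : ℕ} (hd : 2 ≤ d) {N h : ℕ} (hh : h ≠ 0)
    (H : ∀ p ∈ d.primeFactors, p ^ (d.factorization p * N) ∣ h) : d ^ N ∣ h := by
  rw [← Nat.factorization_le_iff_dvd (pow_ne_zero _ (by omega)) hh]
  intro p
  rw [Nat.factorization_pow]
  simp only [Finsupp.coe_smul, Pi.smul_apply, smul_eq_mul]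
  by_cases hp : p ∈ d.primeFactors
  · have h1 := H p hp
    rw [Nat.mem_primeFactors] at hp
    rw [mul_comm]
    exact (hp.1.pow_dvd_iff_le_factorization hh).1 h1
  · rw [← Nat.support_factorization, Finsupp.notMem_support_iff] at hp
    rw [hp]; simp

/-- The main count. -/
theorem count {ι : Type*} {d c β i : ℕ} {w : ℕ → ℤ} {G : ℕ → ℕ → ℕ → Prop} (hd : 2 ≤ d)
    (hG : ∀ p ∈ d.primeFactors, Part p c w β i (G p)) {N j t X L : ℕ} (htj : 2 * i * (t + 1) < j)
    (A : Finset ℕ) (hA : ∀ x ∈ A, X ≤ x ∧ x < X + L) (hc : ∀ x ∈ A, c * (d * N + 1) ≤ x)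
    (lab : ℕ → ι) (hlab : ∀ x ∈ A, ∀ y ∈ A, lab x = lab y → (d : ℤ) ^ N ∣ w x - w y) (V : Finset ι)
    (hV : ∀ x ∈ A, lab x ∈ V) :
    A.card ≤ d.primeFactors.card * (2 * i * (L / 2 ^ t + 1)) +
      V.card * (d ^ j * (L / d ^ (N - (1 + β + j)) + 1)) := by
  classical
  set e := N - (1 + β + j) with he
  set A1 := A.filter (fun x => ∀ p ∈ d.primeFactors, G p j x) with hA1
  set A2 := d.primeFactors.biUnion (fun p => A.filter (fun x => ¬ G p j x)) with hA2
  have hsub : A ⊆ A2 ∪ A1 := by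
    intro x hx
    rw [mem_union, hA1, hA2, mem_filter, mem_biUnion]
    by_cases h : ∀ p ∈ d.primeFactors, G p j x
    · exact Or.inr ⟨hx, h⟩
    · push Not at h
      obtain ⟨p, hp, h⟩ := h
      exact Or.inl ⟨p, hp, mem_filter.2 ⟨hx, h⟩⟩
  have hB2 : A2.card ≤ d.primeFactors.card * (2 * i * (L / 2 ^ t + 1)) := by
    rw [hA2]
    refine card_biUnion_le.trans ?_
    refine (sum_le_card_nsmul _ _ (2 * i * (L / 2 ^ t + 1)) ?_).trans (le_of_eq (smul_eq_mul _ _))
    intro p hp
    exact (hG p hp).2 t j X L _ htj (fun x hx => hA x (mem_filter.1 hx).1) (fun x hx => (mem_filter.1 hx).2)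
  have hdP : ∀ n : ℕ, 0 < d ^ n := fun n => pow_pos (by omega) n
  have hB1 : A1.card ≤ V.card * (d ^ j * (L / d ^ e + 1)) := by
    have h0 : (V ×ˢ (range (d ^ j) ×ˢ range (L / d ^ e + 1))).card =
        V.card * (d ^ j * (L / d ^ e + 1)) := by
      rw [card_product, card_product, card_range, card_range]
    rw [← h0]
    apply card_le_card_of_injOn (fun x => (lab x, x % d ^ j, (x - X) / d ^ e))
    · intro x hx
      have hx' : x ∈ A := (mem_filter.1 hx).1
      have h1 := hA x hx'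
      simp only [coe_product, Set.mem_prod, mem_coe, mem_range]
      refine ⟨hV x hx', Nat.mod_lt _ (hdP j), ?_⟩
      have h2 : (x - X) / d ^ e ≤ L / d ^ e := Nat.div_le_div_right (by omega)
      omega
    · have key : ∀ x ∈ A1, ∀ y ∈ A1, lab x = lab y → x % d ^ j = y % d ^ j →
          (x - X) / d ^ e = (y - X) / d ^ e → ¬ x < y := by
        intro x hx y hy h1 h2 h3 hlt
        rw [hA1, mem_filter] at hx hy
        have h4 : d ^ j ∣ y - x := (Nat.modEq_iff_dvd' hlt.le).1 h2
        have h5 : (d : ℤ) ^ N ∣ w y - w x := hlab y hy.1 x hx.1 h1.symm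
        have h6 : d ^ e ∣ y - x := by
          apply pow_dvd_of_primes hd (by omega)
          intro p hp
          have hp' := Nat.mem_primeFactors.1 hp
          have hf1 : 1 ≤ d.factorization p := hp'.1.factorization_pos_of_dvd (by omega) hp'.2.1
          have hpf : p ^ d.factorization p ∣ d := Nat.ordProj_dvd d p
          have hfd : d.factorization p ≤ d := by
            have h7 : d.factorization p < p ^ d.factorization p := Nat.lt_pow_self hp'.1.one_lt
            have h8 : p ^ d.factorization p ≤ d := Nat.le_of_dvd (by omega) hpf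
            omega
          have h9 : (p : ℤ) ^ (d.factorization p * N) ∣ w y - w x := by
            refine dvd_trans ?_ h5
            rw [pow_mul]
            apply pow_dvd_pow_of_dvd
            exact_mod_cast hpf
          have h10 := (hG p hp).1 j (d.factorization p * N) x y hlt
            ((pow_dvd_pow_of_dvd hp'.2.1 j).trans h4) (by
              refine le_trans ?_ (hc x hx.1)
              apply Nat.mul_le_mul_left
              have := Nat.mul_le_mul_right N hfd
              omega) h9 (hx.2 p hp)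
          refine dvd_trans (pow_dvd_pow p ?_) h10
          have h11 : 1 + β + j ≤ d.factorization p * (1 + β + j) := Nat.le_mul_of_pos_left _ hf1
          rw [he, Nat.mul_sub]
          omega
        have h7 : d ^ e ≤ y - x := Nat.le_of_dvd (by omega) h6
        have h8 := hA x hx.1
        have h9 : (x - X) + d ^ e ≤ y - X := by omega
        have h10 : (x - X) / d ^ e + 1 ≤ (y - X) / d ^ e := by
          rw [← Nat.add_div_right _ (hdP e)]
          exact Nat.div_le_div_right h9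
        omega
      intro x hx y hy h
      simp only [Prod.mk.injEq] at h
      obtain ⟨h1, h2, h3⟩ := h
      rcases lt_trichotomy x y with h4 | h4 | h4
      · exact absurd h4 (key x hx y hy h1 h2 h3)
      · exact h4
      · exact absurd h4 (key y hy x hx h1.symm h2.symm h3.symm)
  exact (card_le_card hsub).trans ((card_union_le _ _).trans (Nat.add_le_add hB2 hB1))

end Pool.Agent.J6H80.LRec
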