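import Mathlib
import Pool.Agent.J6H80.LRec.Sav
import Pool.Agent.J6H80.LRec.Cls

/-!
# Power saving for eventually analytic sequences
-/

set_option autoImplicit false

namespace Pool.Agent.J6H80.LRec

open Finset

theorem exists_sav_all {D M c : ℕ} (hD : 2 ≤ D) {u : ℕ → ℤ} (hu : EvM D M c 0 u) (hM : 1 ≤ M)
    (hns : ∀ p : ℕ, p.Prime → p ∣ D → ∀ a, ¬ Settles p (fun x => u (a + M * x))) {c₁ CV : ℝ} (hc₁ : 0 < c₁)
    (hCV : 0 < CV) (B : ℕ) :
    ∃ K δ : ℝ, 0 < K ∧ 0 < δ ∧ ∀ a < B, Sav D (fun x => u (a + M * x)) c₁ CV K δ := by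
  induction B with
  | zero => exact ⟨1, 1, one_pos, one_pos, fun a ha => absurd ha (Nat.not_lt_zero a)⟩
  | succ B ih =>
    obtain ⟨K1, δ1, h1, h2, h4⟩ := ih
    obtain ⟨β, i, G, hG⟩ := exists_parts (hu.sub hM B) (fun p hp hpd => hns p hp hpd B)
    obtain ⟨K2, δ2, h5, h6, h8⟩ := exists_sav hD hG hc₁ hCV
    refine ⟨max K1 K2, min δ1 δ2, lt_max_of_lt_left h1, lt_min h2 h6, fun a ha => ?_⟩
    rcases Nat.lt_succ_iff_lt_or_eq.1 ha with h9 | h9
    · exact (h4 a h9).mono h1 (le_max_left _ _) (min_le_left _ _)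
    · rw [h9]
      exact h8.mono h5 (le_max_right _ _) (min_le_right _ _)

/-- **Power saving.** Small sets of classes modulo `D ^ N` contain few terms. -/
theorem EvM.power {D M c : ℕ} (hD : 2 ≤ D) {u : ℕ → ℤ} (hu : EvM D M c 0 u) (hM : 1 ≤ M)
    (hns : ∀ p : ℕ, p.Prime → p ∣ D → ∀ a, ¬ Settles p (fun x => u (a + M * x))) {c₁ CV : ℝ} (hc₁ : 0 < c₁)
    (hCV : 0 < CV) :
    ∃ K δ : ℝ, 0 < K ∧ 0 < δ ∧ ∀ {ι : Type} (N X : ℕ) (A : Finset ℕ)
      (lab : ℤ → ι) (V : Finset ι), (∀ n ∈ A, X < n ∧ n ≤ X + D ^ (N + 1)) →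
      (∀ x y : ℤ, lab x = lab y → (D : ℤ) ^ N ∣ x - y) → (∀ n ∈ A, lab (u n) ∈ V) →
      (V.card : ℝ) ≤ CV * (((N : ℝ) + 1) * ((D : ℝ) ^ N * Real.exp (-(c₁ * N)))) →
      (A.card : ℝ) ≤ K * ((D : ℝ) ^ N * Real.exp (-(δ * N))) := by
  classical
  obtain ⟨K, δ, hK, hδ, h⟩ := exists_sav_all hD hu hM hns hc₁ hCV M
  have hM0 : (0 : ℝ) < M := by exact_mod_cast hM
  refine ⟨M * K, δ, by positivity, hδ, ?_⟩
  intro ι N X A lab V hA hlab hV hVc
  have h1 : A.card = ∑ a ∈ range M, #{n ∈ A | n % M = a} :=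
    card_eq_sum_card_fiberwise (fun n _ => mem_range.2 (Nat.mod_lt _ hM))
  have h2 : ∀ a ∈ range M, ((#{n ∈ A | n % M = a} : ℕ) : ℝ) ≤ K * ((D : ℝ) ^ N * Real.exp (-(δ * N))) := by
    intro a ha
    have h3 : #{n ∈ A | n % M = a} = #(({n ∈ A | n % M = a} : Finset ℕ).image (fun n => n / M)) := by
      rw [card_image_of_injOn]
      intro n hn m hm hnm
      rw [mem_coe, mem_filter] at hn hm
      simp only at hnm
      rw [← Nat.mod_add_div n M, ← Nat.mod_add_div m M, hn.2, hm.2, hnm]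
    rw [h3]
    have hback : ∀ x ∈ ({n ∈ A | n % M = a} : Finset ℕ).image (fun n => n / M), a + M * x ∈ A := by
      intro x hx
      rw [mem_image] at hx
      obtain ⟨n, hn, rfl⟩ := hx
      rw [mem_filter] at hn
      have := Nat.mod_add_div n M
      rw [hn.2] at this
      rw [this]; exact hn.1
    refine h a (mem_range.1 ha) ι N (X / M) _ (fun x => lab (u (a + M * x))) V ?_ ?_ ?_ hVc
    · intro x hx
      have h4 := hA _ (hback x hx)
      have ha' := mem_range.1 ha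
      have h5 := Nat.mod_add_div X M
      have h6 := Nat.mod_lt X hM
      have h7 : X / M ≤ x := by
        have : X < M * (x + 1) := by rw [mul_add, mul_one]; omega
        have := (Nat.div_lt_iff_lt_mul hM).2 (by rwa [mul_comm] at this)
        omega
      refine ⟨h7, ?_⟩
      by_contra hcon
      push Not at hcon
      have h8 : M * (X / M + D ^ (N + 2)) ≤ M * x := Nat.mul_le_mul_left M hcon
      rw [mul_add] at h8
      have h10 : M * (2 * D ^ (N + 1)) ≤ M * D ^ (N + 2) := by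
        apply Nat.mul_le_mul_left
        rw [pow_succ D (N + 1), mul_comm]
        exact Nat.mul_le_mul_left _ hD
      have h10' : M * (2 * D ^ (N + 1)) = M * D ^ (N + 1) + M * D ^ (N + 1) := by ring
      have h13 : 0 < D ^ (N + 1) := pow_pos (by omega) _
      have h11 : D ^ (N + 1) ≤ M * D ^ (N + 1) := Nat.le_mul_of_pos_left _ hM
      have h12 : M ≤ M * D ^ (N + 1) := Nat.le_mul_of_pos_right _ h13
      omega
    · intro x _ y _ hxy
      exact hlab _ _ hxy
    · intro x hx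
      exact hV _ (hback x hx)
  rw [h1]
  push_cast
  refine (sum_le_sum h2).trans (le_of_eq ?_)
  rw [sum_const, card_range, nsmul_eq_mul]
  ring

end Pool.Agent.J6H80.LRec
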