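import Mathlib
import Pool.Agent.Y927.GP.E
import Pool.Agent.J6H80.LRec.Tot

/-!
# The law of large numbers along eventually analytic sequences
-/

set_option autoImplicit false

namespace Pool.Agent.J6H80.LRec

open Finset Pool.Agent.H319R2.M Pool.Agent.Y927.GP

/-- The class of multiples and translates. -/
def Par (d : ℕ) (n0 : ℕ) (B : ℝ) (u : ℕ → ℤ) (b c : ℤ) : Prop :=
  IsCoprime b (d : ℤ) ∧ (B = 1 ∨ ∀ n : ℕ, n0 ≤ n → (n : ℝ) ^ B ≤ |((b * u n + c : ℤ) : ℝ)|)

theorem dvd_of_lab {d N : ℕ} {b : ℤ} (hb : IsCoprime b (d : ℤ)) {x y : ℤ}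
    (h : (d : ℤ) ^ N ∣ b * x - b * y) : (d : ℤ) ^ N ∣ x - y := by
  rw [← mul_sub] at h
  exact (hb.pow_right (n := N)).symm.dvd_of_dvd_mul_left h

/-- Small values are rare. -/
theorem small_vals {d M c : ℕ} (hd : 2 ≤ d) {u : ℕ → ℤ} (hu : EvM d M c 0 u) (hM : 1 ≤ M)
    (hns : ∀ p : ℕ, p.Prime → p ∣ d → ∀ a, ¬ Settles p (fun x => u (a + M * x))) {B : ℝ} (hB : 1 ≤ B)
    (n0 : ℕ) {η : ℝ} (hη : 0 < η) :
    ∃ δ K : ℝ, 0 < δ ∧ δ < 1 ∧ 0 < K ∧ ∀ b c : ℤ, Par d n0 B u b c → ∀ (X : ℕ) (Y : ℝ), 1 ≤ Y →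
      ∀ A : Finset ℕ, A ⊆ Ioc X (X + ⌊Y⌋₊) → (∀ n ∈ A, |((b * u n + c : ℤ) : ℝ)| < Y ^ (B - η)) →
        (A.card : ℝ) ≤ K * Y ^ (1 - δ) := by
  classical
  have hd2 : (2 : ℝ) ≤ d := by exact_mod_cast hd
  have hd0 : (0 : ℝ) < d := by linarith
  have hL0 : 0 < Real.log d := Real.log_pos (by linarith)
  set η' : ℝ := min η (1 / 2) with hη'
  have hη'0 : 0 < η' := lt_min hη (by norm_num)
  have hη'1 : η' ≤ 1 / 2 := min_le_right _ _
  have hη'2 : η' ≤ η := min_le_left _ _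
  obtain ⟨K1, δ1, hK1, hδ1, hpow⟩ := hu.power hd hM hns (c₁ := η' * Real.log d) (CV := 3 * d) (by positivity)
    (by positivity)
  obtain ⟨δ2, K2, hδ20, hδ21, hK2, hconv⟩ := conv d hd hδ1
  set δ3 : ℝ := η' / B with hδ3
  have hB0 : 0 < B := by linarith
  have hδ30 : 0 < δ3 := by positivity
  have hδ31 : δ3 ≤ 1 / 2 := by
    rw [hδ3, div_le_iff₀ hB0]; linarith
  set δ : ℝ := min δ2 δ3 with hδ
  have hδ0 : 0 < δ := lt_min hδ20 hδ30
  have hδ1' : δ < 1 := lt_of_le_of_lt (min_le_left _ _) hδ21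
  refine ⟨δ, K1 * K2 + (n0 + 2), hδ0, hδ1', by positivity, ?_⟩
  intro b c' hbc X Y hY A hA hsm
  have hYp : 0 < Y := by linarith
  have hY1δ : 1 ≤ Y ^ (1 - δ) := Real.one_le_rpow hY (by linarith)
  obtain ⟨hb, hBc⟩ := hbc
  rcases hBc with hB1 | hgr
  · -- counting of labels
    obtain ⟨N, hN1, hN2, hNM⟩ := scale d hd Y hY
    have hN0 : (0 : ℝ) ≤ N := Nat.cast_nonneg _
    set Z : ℕ := ⌊Y ^ (1 - η')⌋₊ with hZ
    have hYe1 : 1 ≤ Y ^ (1 - η') := Real.one_le_rpow hY (by linarith)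
    have h1 := hpow N X A (fun x => b * x + c') (Finset.Icc (-(Z : ℤ)) Z)
      (fun n hn => by
        have := mem_Ioc.1 (hA hn)
        exact ⟨this.1, by omega⟩)
      (fun x y h => by
        apply dvd_of_lab hb
        have h' : b * x + c' = b * y + c' := h
        have : b * x - b * y = 0 := by linarith
        rw [this]; exact dvd_zero _)
      (fun n hn => by
        have h4 := hsm n hn
        have h5 : (b * u n + c').natAbs ≤ Z := by
          apply Nat.le_floor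
          have e : (((b * u n + c').natAbs : ℕ) : ℝ) = |((b * u n + c' : ℤ) : ℝ)| := by
            rw [← Int.cast_abs, Int.abs_eq_natAbs]; simp
          rw [e]
          refine h4.le.trans ?_
          apply Real.rpow_le_rpow_of_exponent_le hY
          rw [hB1]; linarith
        rw [mem_Icc]
        constructor <;> omega)
      (by
        rw [Int.card_Icc]
        have e : (Z : ℤ) + 1 - -(Z : ℤ) = ((2 * Z + 1 : ℕ) : ℤ) := by push_cast; ring
        rw [e, Int.toNat_natCast]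
        have h4 : (Z : ℝ) ≤ Y ^ (1 - η') := Nat.floor_le (by positivity)
        have h5 : Y ^ (1 - η') ≤ d * ((d : ℝ) ^ N * Real.exp (-(η' * Real.log d * N))) := by
          calc Y ^ (1 - η') ≤ ((d : ℝ) ^ (N + 1)) ^ (1 - η') :=
                Real.rpow_le_rpow hYp.le hN2.le (by linarith)
            _ = Real.exp ((N + 1) * (1 - η') * Real.log d) := by
                rw [Real.rpow_def_of_pos (by positivity), Real.log_pow]
                push_cast
                congr 1; ring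
            _ ≤ Real.exp (Real.log d + (N * Real.log d + (-(η' * Real.log d * N)))) := by
                apply Real.exp_le_exp.2
                have : 0 ≤ η' * Real.log d := by positivity
                nlinarith
            _ = d * ((d : ℝ) ^ N * Real.exp (-(η' * Real.log d * N))) := by
                rw [Real.exp_add, Real.exp_add, Real.exp_log hd0, Real.exp_nat_mul, Real.exp_log hd0]
        have h6 : 0 ≤ d * ((d : ℝ) ^ N * Real.exp (-(η' * Real.log d * N))) := by positivity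
        calc (((2 * Z + 1 : ℕ) : ℝ)) ≤ 3 * (d * ((d : ℝ) ^ N * Real.exp (-(η' * Real.log d * N)))) := by
              push_cast; linarith
          _ = 3 * d * (1 * ((d : ℝ) ^ N * Real.exp (-(η' * Real.log d * N)))) := by ring
          _ ≤ 3 * d * (((N : ℝ) + 1) * ((d : ℝ) ^ N * Real.exp (-(η' * Real.log d * N)))) := by
              gcongr
              linarith)
    have h2 := hconv N Y hY hN2
    calc (A.card : ℝ) ≤ K1 * ((d : ℝ) ^ N * Real.exp (-(δ1 * N))) := h1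
      _ ≤ K1 * (Y * (((N : ℝ) + 1) * Real.exp (-(δ1 * N)))) := by
          apply mul_le_mul_of_nonneg_left _ hK1.le
          apply mul_le_mul hN1 _ (Real.exp_pos _).le hYp.le
          exact le_mul_of_one_le_left (Real.exp_pos _).le (by linarith)
      _ = K1 * (((N : ℝ) + 1) * Real.exp (-(δ1 * N)) * Y) := by ring
      _ ≤ K1 * (K2 * Y ^ (1 - δ2)) := by gcongr
      _ ≤ K1 * (K2 * Y ^ (1 - δ)) := by
          gcongr
          exact min_le_left _ _
      _ = K1 * K2 * Y ^ (1 - δ) := by ring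
      _ ≤ (K1 * K2 + (n0 + 2)) * Y ^ (1 - δ) := by
          apply mul_le_mul_of_nonneg_right _ (by positivity)
          have : (0 : ℝ) ≤ n0 := Nat.cast_nonneg _
          linarith
  · -- growth
    set Z : ℕ := ⌊Y ^ (1 - δ)⌋₊ with hZ
    have hsub : A ⊆ range (n0 + Z + 1) := by
      intro n hn
      rw [mem_range]
      by_contra hcon
      push Not at hcon
      have h1 := hgr n (by omega)
      have h2 := hsm n hn
      have h3 : (n : ℝ) ^ B < Y ^ (B - η) := lt_of_le_of_lt h1 h2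
      have h4 : (n : ℝ) < Y ^ (1 - δ) := by
        by_contra h5
        push Not at h5
        have h6 : Y ^ (B - η) ≤ (n : ℝ) ^ B := by
          calc Y ^ (B - η) ≤ Y ^ ((1 - δ) * B) := by
                apply Real.rpow_le_rpow_of_exponent_le hY
                have h7 : δ ≤ δ3 := min_le_right _ _
                have h8 : δ3 * B = η' := by rw [hδ3]; field_simp
                nlinarith
            _ = (Y ^ (1 - δ)) ^ B := by rw [Real.rpow_mul hYp.le]
            _ ≤ (n : ℝ) ^ B := Real.rpow_le_rpow (by positivity) h5 hB0.le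
        linarith
      have h5 : n ≤ Z := Nat.le_floor h4.le
      omega
    have h1 := card_le_card hsub
    rw [card_range] at h1
    have h2 : (A.card : ℝ) ≤ n0 + Z + 1 := by exact_mod_cast h1
    have h3 : (Z : ℝ) ≤ Y ^ (1 - δ) := Nat.floor_le (by positivity)
    have h4 : (0 : ℝ) ≤ n0 := Nat.cast_nonneg _
    have h5 : 0 < K1 * K2 := by positivity
    nlinarith

/-- **The law.** -/
theorem law {g : GM} {b' : ℤ → ℤ} {e : ℤ → ℕ} {C : Finset (ℤ × ℕ)} {ρ : ℤ × ℕ → ℝ}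
    (hf : g.Fac b' e) (hC : g.Cls e C ρ) {M c : ℕ} {u : ℕ → ℤ} (hu : EvM g.d M c 0 u) (hM : 1 ≤ M)
    (hns : ∀ p : ℕ, p.Prime → p ∣ g.d → ∀ a, ¬ Settles p (fun x => u (a + M * x))) {B : ℝ} (hB : 1 ≤ B)
    (hΛ : -mu g C ρ < B * Real.log g.d) (n0 : ℕ) {ε : ℝ} (hε : 0 < ε) :
    ∃ δ K : ℝ, 0 < δ ∧ δ < 1 ∧ 0 < K ∧ ∀ b c : ℤ, Par g.d n0 B u b c → ∀ (X : ℕ) (Y : ℝ), 1 ≤ Y →
      ∀ A : Finset ℕ, A ⊆ Ioc X (X + ⌊Y⌋₊) →
        (∀ n ∈ A, b * u n + c ∈ g.SC C ∧ ¬ Typ g (mu g C ρ) ε Y (b * u n + c)) →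
          (A.card : ℝ) ≤ K * Y ^ (1 - δ) := by
  classical
  set μ := mu g C ρ with hμ
  have hd2 := g.two_le
  have hd1 : (1 : ℝ) < g.d := by have := g.dr; linarith
  have hd0 : (0 : ℝ) < g.d := by linarith
  have hL : 0 < Real.log g.d := Real.log_pos hd1
  set κ : ℝ := max 0 (-μ / Real.log g.d) with hκdef
  have hκ0 : 0 ≤ κ := le_max_left _ _
  have hκ : -μ ≤ κ * Real.log g.d := by
    have h1 : -μ / Real.log g.d ≤ κ := le_max_right _ _
    rwa [div_le_iff₀ hL] at h1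
  have hκB : κ < B := by
    apply max_lt (by linarith)
    rw [div_lt_iff₀ hL]; exact hΛ
  set ε1 : ℝ := min ε ((B - κ) / 4) with hε1
  have hε10 : 0 < ε1 := lt_min hε (by linarith)
  have hε1ε : ε1 ≤ ε := min_le_left _ _
  have hε1β : ε1 ≤ (B - κ) / 4 := min_le_right _ _
  obtain ⟨c₁, K2, hc, hK2, hclass⟩ := card_classes hf hC (η := ε1 / 4 * Real.log g.d) (by positivity)
  obtain ⟨K1, δ1, hK1, hδ1, hpow⟩ := hu.power hd2 hM hns (c₁ := c₁) (CV := K2) hc hK2
  obtain ⟨δ2, K3, hδ20, hδ21, hK3, hconv⟩ := conv g.d hd2 hδ1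
  obtain ⟨δ4, K4, hδ40, hδ41, hK4, hsmall⟩ := small_vals hd2 hu hM hns hB n0 hε10
  obtain ⟨Y0, hY01, hlarge⟩ := large g.d hd2 one_pos (show 0 < ε1 / 4 by positivity)
    (show 0 < (B - κ) / 2 by linarith) g.R_nonneg 0
  set δ : ℝ := min δ2 δ4 with hδ
  have hδ0 : 0 < δ := lt_min hδ20 hδ40
  have hδa : δ ≤ δ2 := min_le_left _ _
  have hδb : δ ≤ δ4 := min_le_right _ _
  have hδ1' : δ < 1 := lt_of_le_of_lt hδa hδ21
  refine ⟨δ, K1 * K3 + K4 + Y0, hδ0, hδ1', by positivity, ?_⟩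
  intro b c' hbc X Y hY A hA hbad
  have hYp : 0 < Y := by linarith
  have hY1δ : 1 ≤ Y ^ (1 - δ) := Real.one_le_rpow hY (by linarith)
  obtain ⟨N, hN1, hN2, hNM⟩ := scale g.d hd2 Y hY
  have hN0 : (0 : ℝ) ≤ N := Nat.cast_nonneg _
  have hE0 : (0 : ℝ) ≤ K1 * K3 + K4 := by positivity
  rcases lt_or_ge Y Y0 with hsm | hbig
  · have h1 : (A.card : ℝ) ≤ Y := by
      have h2 := Finset.card_le_card hA
      rw [Nat.card_Ioc, Nat.add_sub_cancel_left] at h2
      have h4 : (A.card : ℝ) ≤ ⌊Y⌋₊ := by exact_mod_cast h2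
      exact h4.trans (Nat.floor_le hYp.le)
    nlinarith
  obtain ⟨-, hYε, hRN⟩ := hlarge Y hbig N hN1 hN2
  set A1 := A.filter (fun n => Y ^ (B - ε1) ≤ |((b * u n + c' : ℤ) : ℝ)|) with hA1
  set A2 := A.filter (fun n => ¬ Y ^ (B - ε1) ≤ |((b * u n + c' : ℤ) : ℝ)|) with hA2
  have hcard : A1.card + A2.card = A.card :=
    card_filter_add_card_filter_not (s := A) (fun n => Y ^ (B - ε1) ≤ |((b * u n + c' : ℤ) : ℝ)|)
  have hB2 : (A2.card : ℝ) ≤ K4 * Y ^ (1 - δ) := by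
    have h1 := hsmall b c' hbc X Y hY A2 ((filter_subset _ _).trans hA)
      (fun n hn => not_le.1 (mem_filter.1 hn).2)
    refine h1.trans ?_
    gcongr
  have hB1 : (A1.card : ℝ) ≤ K1 * K3 * Y ^ (1 - δ) := by
    set V := A1.image (fun n => (b * u n + c') % (g.d : ℤ) ^ N) with hV
    have hVc : (V.card : ℝ) ≤ K2 * (((N : ℝ) + 1) * ((g.d : ℝ) ^ N * Real.exp (-(c₁ * N)))) := by
      apply hclass N V
      intro v hv
      rw [hV, mem_image] at hv
      obtain ⟨n, hn, rfl⟩ := hv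
      rw [hA1, mem_filter] at hn
      obtain ⟨hS, hT⟩ := hbad n hn.1
      refine ⟨b * u n + c', hS, ?_, rfl⟩
      by_contra hU
      exact hT (typ_of g hκ0 hκ hε10 hε1ε hε1β hY hN1 hN2 hYε hRN hn.2 hU)
    have h1 := hpow N X A1 (fun x => (b * x + c') % (g.d : ℤ) ^ N) V
      (fun n hn => by
        have := mem_Ioc.1 (hA (mem_filter.1 hn).1)
        exact ⟨this.1, by omega⟩)
      (fun x y h => by
        apply dvd_of_lab hbc.1
        have h' : (b * y + c') % (g.d : ℤ) ^ N = (b * x + c') % (g.d : ℤ) ^ N := h.symm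
        have h2 : (g.d : ℤ) ^ N ∣ (b * x + c') - (b * y + c') := Int.ModEq.dvd h'
        have e : (b * x + c') - (b * y + c') = b * x - b * y := by ring
        rwa [e] at h2)
      (fun n hn => by rw [hV]; exact mem_image_of_mem _ hn) hVc
    have h2 := hconv N Y hY hN2
    calc (A1.card : ℝ) ≤ K1 * ((g.d : ℝ) ^ N * Real.exp (-(δ1 * N))) := h1
      _ ≤ K1 * (Y * (((N : ℝ) + 1) * Real.exp (-(δ1 * N)))) := by
          apply mul_le_mul_of_nonneg_left _ hK1.le
          apply mul_le_mul hN1 _ (Real.exp_pos _).le hYp.le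
          exact le_mul_of_one_le_left (Real.exp_pos _).le (by linarith)
      _ = K1 * (((N : ℝ) + 1) * Real.exp (-(δ1 * N)) * Y) := by ring
      _ ≤ K1 * (K3 * Y ^ (1 - δ2)) := by gcongr
      _ ≤ K1 * (K3 * Y ^ (1 - δ)) := by
          gcongr
      _ = K1 * K3 * Y ^ (1 - δ) := by ring
  have hcard' : (A.card : ℝ) = A1.card + A2.card := by
    have h1 : ((A1.card + A2.card : ℕ) : ℝ) = A.card := by exact_mod_cast hcard
    rw [← h1]; push_cast; ring
  have hY0 : 0 ≤ Y0 * Y ^ (1 - δ) := by positivity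
  rw [hcard']
  nlinarith

end Pool.Agent.J6H80.LRec
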